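import Pool.Agent.Helper58.SF.StA

/-!
# Project SF, module DEG: degrees, formal rules
-/

set_option autoImplicit false

namespace Pool.Agent.Helper92.SF

open Set Topology Pool.Agent.Helper13.TR Pool.Agent.Helper58.SF
open Pool.Agent.Helper13.TW (IsArc Spl IsSCC dch Chn Splt GT CSy MP Val LR MCell StARB StARX StSCL StUAR StINF StLIN StAC1 StSDM)

private theorem mem_cyc {P : Type} [TopologicalSpace P] (F : Set P) (e : Ch P 3) :
    e ∈ Cyc F 3 ↔ bd 2 e ∈ cin Fᶜ 2 := Iff.rfl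

theorem hDEG : StMON → StCON → StSDA → StDEG := by
  intro hM hC _ P _ _ dg h
  obtain ⟨m1, m2, m3, m4, m5, m6⟩ := hM P
  have hzero : ∀ x : P, dg x 0 = 0 := fun x => h.nul x 0 (Submodule.zero_mem _)
  -- carriers
  have car : ∀ (F : Set P) (e : Ch P 3), e ∈ Cyc F 3 →
      ∃ O : Set P, IsOpen O ∧ F ⊆ O ∧ bd 2 e ∈ cin Oᶜ 2 := by
    intro F e he
    obtain ⟨Q, hQc, hQe, hQm⟩ := hC.2 P 2 (bd 2 e)
    have hQF : Q ⊆ Fᶜ := hQm Fᶜ ((mem_cyc F e).1 he)
    refine ⟨Qᶜ, hQc.isClosed.isOpen_compl, ?_, ?_⟩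
    · intro x hx hxQ
      exact hQF hxQ hx
    · rw [compl_compl]
      exact hQe
  refine ⟨?_, ?_, ?_, ?_, ?_⟩
  · intro x
    let φ : ↥(Cyc ({x} : Set P) 3) →+ ℤ :=
      { toFun := fun e => dg x (e : Ch P 3)
        map_zero' := by simpa using hzero x
        map_add' := fun e e' => by
          simpa using h.add x (e : Ch P 3) e.2 (e' : Ch P 3) e'.2 }
    refine ⟨hzero x, ?_, ?_⟩
    · intro e he e' he'
      have := map_sub φ ⟨e, he⟩ ⟨e', he'⟩
      simpa [φ] using this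
    · intro m e he
      have := map_zsmul φ m ⟨e, he⟩
      simpa [φ] using this
  · intro x e he
    have h1 : e ∈ Nul ({x} : Set P) 3 := Submodule.mem_sup_left he
    exact ⟨(mem_cyc {x} e).2 (m4 _ 2 e he), h1, h.nul x e h1⟩
  · intro F e he x y hxy
    obtain ⟨O, hO, hFO, hb⟩ := car F e he
    exact h.loc e O hO hb x y (hxy.mono hFO)
  · intro F hF e he x hx
    exact h.nul x e ((m5 {x} F 3 (singleton_subset_iff.2 hx)).2 (hF he))
  · intro hl x e he
    obtain ⟨O, hO, hFO, hb⟩ := car {x} e he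
    have hxO : x ∈ O := hFO rfl
    refine ⟨pathComponentIn O x, hO.pathComponentIn x, mem_pathComponentIn_self hxO, ?_⟩
    intro y hy
    have hj : JoinedIn O x y := hy
    exact (h.loc e O hO hb x y hj).symm

end Pool.Agent.Helper92.SF
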