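import Pool.Agent.Helper58.SF.StN

/-!
# Project SF, module END: paths in the interior of a cell close to the boundary
-/

set_option autoImplicit false

namespace Pool.Agent.Helper92.SF

open Set Topology Pool.Agent.Helper13.TR Pool.Agent.Helper58.SF
open Pool.Agent.Helper13.TW (IsArc Spl IsSCC dch Chn Splt GT CSy MP Val LR MCell StARB StARX StSCL StUAR StINF StLIN StAC1 StSDM StLRC StBF StMD1 StMD2 StMD3)

theorem hEND : StEND := by
  intro S _ E K θ hK hKE W y₁ p hW hj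
  obtain ⟨c, hc⟩ := hj
  let B : Set ℂ := Metric.closedBall (0 : ℂ) 1
  have hBn : ∀ v : ℂ, v ∈ B ↔ ‖v‖ ≤ 1 := fun v => by
    change v ∈ Metric.closedBall (0 : ℂ) 1 ↔ _
    rw [mem_closedBall_zero_iff]
  classical
  let τ : ℂ → S := fun v => if h : v ∈ B then ((θ.symm ⟨v, h⟩ : ↥E) : S) else p
  have hτv : ∀ (v : ℂ) (h : v ∈ B), τ v = ((θ.symm ⟨v, h⟩ : ↥E) : S) := fun v h => dif_pos h
  have hτ : ContinuousOn τ B := by
    rw [continuousOn_iff_continuous_domRestrict]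
    have e : B.domRestrict τ = fun v : ↥B => ((θ.symm v : ↥E) : S) := by
      funext v
      exact hτv v v.2
    rw [e]
    exact continuous_subtype_val.comp θ.symm.continuous
  have hτE : ∀ v ∈ B, τ v ∈ E := by
    intro v hv
    rw [hτv v hv]
    exact (θ.symm ⟨v, hv⟩).2
  have hτθ : ∀ x : ↥E, τ (θ x : ℂ) = (x : S) := by
    intro x
    rw [hτv (θ x : ℂ) (θ x).2]
    have e : (⟨(θ x : ℂ), (θ x).2⟩ : ↥(Metric.closedBall (0 : ℂ) 1)) = θ x := rfl
    rw [e, θ.symm_apply_apply]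
  have hτK : ∀ v ∈ B, (τ v ∈ K ↔ ‖v‖ = 1) := by
    intro v hv
    rw [hτv v hv, hK, θ.apply_symm_apply]
  have hin : ∀ v : ℂ, ‖v‖ < 1 → τ v ∈ E \ K := by
    intro v hv
    have hvB : v ∈ B := (hBn v).2 hv.le
    exact ⟨hτE v hvB, fun h => (ne_of_lt hv) ((hτK v hvB).1 h)⟩
  -- the path on the circle
  let g : unitInterval → ℂ := fun u => (θ ⟨c u, hKE (hc u).1⟩ : ℂ)
  have hg : Continuous g :=
    continuous_subtype_val.comp (θ.continuous.comp (Continuous.subtype_mk c.continuous _))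
  have hg1 : ∀ u, ‖g u‖ = 1 := fun u => (hK ⟨c u, hKE (hc u).1⟩).1 (hc u).1
  have hgτ : ∀ u, τ (g u) = c u := fun u => hτθ ⟨c u, hKE (hc u).1⟩
  have hnorm : ∀ (ρ : unitInterval) (u : unitInterval), ‖((ρ : ℝ) : ℂ) * g u‖ = (ρ : ℝ) := by
    intro ρ u
    rw [norm_mul, hg1, mul_one, Complex.norm_real, Real.norm_of_nonneg ρ.2.1]
  have hmulB : ∀ (ρ : unitInterval) (u : unitInterval), ((ρ : ℝ) : ℂ) * g u ∈ B := by
    intro ρ u
    rw [hBn, hnorm]
    exact ρ.2.2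
  have hcont : Continuous fun q : unitInterval × unitInterval =>
      τ (((q.1 : ℝ) : ℂ) * g q.2) := by
    refine hτ.comp_continuous ?_ fun q => hmulB q.1 q.2
    exact (Complex.continuous_ofReal.comp (continuous_subtype_val.comp continuous_fst)).mul
      (hg.comp continuous_snd)
  have hopen : IsOpen {q : unitInterval × unitInterval | τ (((q.1 : ℝ) : ℂ) * g q.2) ∈ W} :=
    hW.preimage hcont
  have hev : ∀ᶠ ρ : unitInterval in 𝓝 (1 : unitInterval), ∀ u ∈ (univ : Set unitInterval),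
      τ (((ρ : ℝ) : ℂ) * g u) ∈ W := by
    refine IsCompact.eventually_forall_of_forall_eventually isCompact_univ ?_
    intro u _
    have hmem : ((1 : unitInterval), u) ∈
        {q : unitInterval × unitInterval | τ (((q.1 : ℝ) : ℂ) * g q.2) ∈ W} := by
      change τ ((((1 : unitInterval) : ℝ) : ℂ) * g u) ∈ W
      have e1 : ((((1 : unitInterval) : ℝ) : ℂ) * g u) = g u := by
        rw [Set.Icc.coe_one, Complex.ofReal_one, one_mul]
      rw [e1, hgτ]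
      exact (hc u).2
    exact hopen.mem_nhds hmem
  obtain ⟨ε, hε, hev⟩ := Metric.eventually_nhds_iff.1 hev
  -- near `y₁`
  have hy₁E : y₁ ∈ E := by
    have := hKE (hc 0).1
    rwa [c.source] at this
  have hpE : p ∈ E := by
    have := hKE (hc 1).1
    rwa [c.target] at this
  let w₁ : ℂ := (θ ⟨y₁, hy₁E⟩ : ℂ)
  let w₂ : ℂ := (θ ⟨p, hpE⟩ : ℂ)
  have hg0 : g 0 = w₁ := by
    have e : (⟨c 0, hKE (hc 0).1⟩ : ↥E) = ⟨y₁, hy₁E⟩ := Subtype.ext c.source
    change (θ ⟨c 0, hKE (hc 0).1⟩ : ℂ) = (θ ⟨y₁, hy₁E⟩ : ℂ)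
    rw [e]
  have hg1' : g 1 = w₂ := by
    have e : (⟨c 1, hKE (hc 1).1⟩ : ↥E) = ⟨p, hpE⟩ := Subtype.ext c.target
    change (θ ⟨c 1, hKE (hc 1).1⟩ : ℂ) = (θ ⟨p, hpE⟩ : ℂ)
    rw [e]
  have hw₁ : ‖w₁‖ = 1 := by rw [← hg0]; exact hg1 0
  have hw₂ : ‖w₂‖ = 1 := by rw [← hg1']; exact hg1 1
  have hτw₁ : τ w₁ = y₁ := hτθ ⟨y₁, hy₁E⟩
  have hτw₂ : τ w₂ = p := hτθ ⟨p, hpE⟩
  have hy₁W : y₁ ∈ W := by
    have := (hc 0).2
    rwa [c.source] at this
  obtain ⟨r₁, hr₁, hr⟩ : ∃ r₁ : ℝ, 0 < r₁ ∧ ∀ v ∈ B, ‖v - w₁‖ < r₁ → τ v ∈ W := by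
    have hw₁B : w₁ ∈ B := (hBn w₁).2 hw₁.le
    have h1 : τ ⁻¹' W ∈ 𝓝[B] w₁ := (hτ w₁ hw₁B) (by rw [hτw₁]; exact hW.mem_nhds hy₁W)
    obtain ⟨r₁, hr₁, hr⟩ := Metric.mem_nhdsWithin_iff.1 h1
    refine ⟨r₁, hr₁, fun v hv hvr => hr ⟨?_, hv⟩⟩
    rw [Metric.mem_ball, dist_eq_norm]
    exact hvr
  -- the radius
  obtain ⟨σ, hσ0, hσ1, hσε, hσr⟩ : ∃ σ : ℝ, 0 < σ ∧ σ < 1 ∧ σ < ε ∧ σ < r₁ := by
    refine ⟨min (min ε r₁) 1 / 2, ?_, ?_, ?_, ?_⟩
    · have : 0 < min (min ε r₁) 1 := lt_min (lt_min hε hr₁) one_pos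
      linarith
    · have := min_le_right (min ε r₁) 1
      linarith
    · have h1 := min_le_left (min ε r₁) 1
      have h2 := min_le_left ε r₁
      linarith
    · have h1 := min_le_left (min ε r₁) 1
      have h2 := min_le_right ε r₁
      linarith
  have hρW : ∀ (ρ : ℝ) (u : unitInterval), 1 - σ ≤ ρ → ρ ≤ 1 → τ ((ρ : ℂ) * g u) ∈ W := by
    intro ρ u h1 h2
    have h0 : 0 ≤ ρ := by linarith
    refine hev (y := ⟨ρ, h0, h2⟩) ?_ u (mem_univ u)
    rw [Subtype.dist_eq, Set.Icc.coe_one, Real.dist_eq, abs_lt]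
    constructor <;> simp only <;> linarith
  have hρn : ∀ (ρ : ℝ) (w : ℂ), 0 ≤ ρ → ‖w‖ = 1 → ‖(ρ : ℂ) * w‖ = ρ := by
    intro ρ w h1 h2
    rw [norm_mul, h2, mul_one, Complex.norm_real, Real.norm_of_nonneg h1]
  -- the neighbourhood
  have hO' : IsOpen {x : ↥E | ‖(θ x : ℂ) - w₁‖ < r₁} := by
    refine isOpen_lt ?_ continuous_const
    exact ((continuous_subtype_val.comp θ.continuous).sub continuous_const).norm
  obtain ⟨O, hO, hOe⟩ := isOpen_induced_iff.1 hO'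
  refine ⟨O, hO, ?_, ?_⟩
  · have : (⟨y₁, hy₁E⟩ : ↥E) ∈ (Subtype.val : ↥E → S) ⁻¹' O := by
      rw [hOe]
      change ‖w₁ - w₁‖ < r₁
      rw [sub_self, norm_zero]
      exact hr₁
    exact this
  · rintro z ⟨hzO, hzE, hzK⟩
    have hz : ‖(θ ⟨z, hzE⟩ : ℂ) - w₁‖ < r₁ := by
      have : (⟨z, hzE⟩ : ↥E) ∈ (Subtype.val : ↥E → S) ⁻¹' O := hzO
      rw [hOe] at this
      exact this
    let w : ℂ := (θ ⟨z, hzE⟩ : ℂ)
    have hw1 : ‖w‖ < 1 := by
      have hle : ‖w‖ ≤ 1 := (hBn w).1 (θ ⟨z, hzE⟩).2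
      refine lt_of_le_of_ne hle fun h => hzK ?_
      exact (hK ⟨z, hzE⟩).2 h
    have hτw : τ w = z := hτθ ⟨z, hzE⟩
    -- first piece
    have j1 : JoinedIn ((W ∩ (E \ K)) ∪ {p}) z (τ (((1 - σ : ℝ) : ℂ) * w₁)) := by
      let C : Set ℂ := Metric.ball (0 : ℂ) 1 ∩ Metric.ball w₁ r₁
      have hCc : Convex ℝ C := (convex_ball _ _).inter (convex_ball _ _)
      have hwC : w ∈ C := by
        refine ⟨by rw [mem_ball_zero_iff]; exact hw1, ?_⟩
        rw [Metric.mem_ball, dist_eq_norm]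
        exact hz
      have hw'C : ((1 - σ : ℝ) : ℂ) * w₁ ∈ C := by
        refine ⟨?_, ?_⟩
        · rw [mem_ball_zero_iff, hρn (1 - σ) w₁ (by linarith) hw₁]
          linarith
        · rw [Metric.mem_ball, dist_eq_norm]
          have e : ((1 - σ : ℝ) : ℂ) * w₁ - w₁ = -((σ : ℂ) * w₁) := by
            push_cast
            ring
          rw [e, norm_neg, hρn σ w₁ hσ0.le hw₁]
          exact hσr
      have hCp : IsPathConnected C := hCc.isPathConnected ⟨w, hwC⟩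
      have hCB : C ⊆ B := fun v hv => (hBn v).2 (mem_ball_zero_iff.1 hv.1).le
      have hi := (hCp.image' (hτ.mono hCB)).joinedIn (τ w) ⟨w, hwC, rfl⟩
        (τ (((1 - σ : ℝ) : ℂ) * w₁)) ⟨_, hw'C, rfl⟩
      rw [hτw] at hi
      refine hi.mono ?_
      rintro _ ⟨v, hv, rfl⟩
      left
      refine ⟨hr v (hCB hv) ?_, hin v (mem_ball_zero_iff.1 hv.1)⟩
      have := hv.2
      rwa [Metric.mem_ball, dist_eq_norm] at this
    -- second piece
    have j2 : JoinedIn ((W ∩ (E \ K)) ∪ {p}) (τ (((1 - σ : ℝ) : ℂ) * w₁))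
        (τ (((1 - σ : ℝ) : ℂ) * w₂)) := by
      have hc2 : Continuous fun u : unitInterval => τ (((1 - σ : ℝ) : ℂ) * g u) := by
        refine hτ.comp_continuous (continuous_const.mul hg) fun u => ?_
        rw [hBn, hρn (1 - σ) (g u) (by linarith) (hg1 u)]
        linarith
      refine ⟨⟨⟨fun u : unitInterval => τ (((1 - σ : ℝ) : ℂ) * g u), hc2⟩, by simp only [hg0],
        by simp only [hg1']⟩, fun u => ?_⟩
      left
      refine ⟨hρW (1 - σ) u le_rfl (by linarith), hin _ ?_⟩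
      rw [hρn (1 - σ) (g u) (by linarith) (hg1 u)]
      linarith
    -- third piece
    have j3 : JoinedIn ((W ∩ (E \ K)) ∪ {p}) (τ (((1 - σ : ℝ) : ℂ) * w₂)) p := by
      have hc3 : ContinuousOn (fun ρ : ℝ => τ ((ρ : ℂ) * w₂)) (Icc (1 - σ) 1) := by
        refine hτ.comp (Complex.continuous_ofReal.mul continuous_const).continuousOn ?_
        intro ρ hρ
        rw [hBn, hρn ρ w₂ (by linarith [hρ.1]) hw₂]
        exact hρ.2
      have hI : IsPathConnected (Icc (1 - σ) 1) :=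
        (convex_Icc (1 - σ) 1).isPathConnected ⟨1, by linarith, le_rfl⟩
      have hi := (hI.image' hc3).joinedIn (τ (((1 - σ : ℝ) : ℂ) * w₂))
        ⟨1 - σ, ⟨le_rfl, by linarith⟩, rfl⟩ p ⟨1, ⟨by linarith, le_rfl⟩, by
          simp only [Complex.ofReal_one, one_mul, hτw₂]⟩
      refine hi.mono ?_
      rintro _ ⟨ρ, hρ, rfl⟩
      rcases lt_or_eq_of_le hρ.2 with h | h
      · left
        refine ⟨?_, hin _ ?_⟩
        · have := hρW ρ 1 hρ.1 hρ.2
          rwa [hg1'] at this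
        · rw [hρn ρ w₂ (by linarith [hρ.1]) hw₂]
          exact h
      · right
        rw [mem_singleton_iff]
        simp only [h, Complex.ofReal_one, one_mul, hτw₂]
    exact (j1.trans j2).trans j3

end Pool.Agent.Helper92.SF
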